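import Pool.Agent.H585R4.JT.Final
import Pool.Agent.H511R3.JT.E

/-!
# The dual of a primary Banach space need not be primary

Let `JT` be the James tree space (over the real or the complex numbers).  We prove that the identity of `JT`
factors through `T` or through `1 - T` for every bounded operator `T` on `JT`, whence `JT` is primary, and that the
bidual of `JT` is the direct sum of `JT` (separable) and of a Hilbert space, hence is not primary (it is neither
separable nor reflexive).  So `JT`, if its dual is not primary, or else the dual of `JT`, is a primary space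
whose dual is not primary.
-/

set_option autoImplicit false

namespace Pool.Agent.Results.MP_5801e7_an.NonPrimaryDual

/-- A Banach space `X` is primary: it is infinite-dimensional and whenever `X` is the topological direct sum of two
closed subspaces `Y` and `Z`, at least one of `Y`, `Z` is isomorphic to `X`. -/
def IsPrimary (𝕜 X : Type) [RCLike 𝕜] [NormedAddCommGroup X] [NormedSpace 𝕜 X] : Prop :=
  ¬ FiniteDimensional 𝕜 X ∧
  ∀ Y Z : Submodule 𝕜 X, IsClosed (Y : Set X) → IsClosed (Z : Set X) → IsCompl Y Z →
    Nonempty (Y ≃L[𝕜] X) ∨ Nonempty (Z ≃L[𝕜] X)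

/-- Over the real and over the complex field there is a primary Banach space whose dual is not primary. -/
theorem result (𝕜 : Type) [RCLike 𝕜] :
    ∃ (X : Type) (_ : NormedAddCommGroup X) (_ : NormedSpace 𝕜 X) (_ : CompleteSpace X),
      IsPrimary 𝕜 X ∧ ¬ IsPrimary 𝕜 (StrongDual 𝕜 X) := by
  obtain ⟨X, i1, i2, i3, h1, h2⟩ := Pool.Agent.H585R4.JT.assembly (𝕜 := 𝕜) Pool.Agent.H511R3.JT.taskE
  exact ⟨X, i1, i2, i3, h1, h2⟩

end Pool.Agent.Results.MP_5801e7_an.NonPrimaryDual
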